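import Mathlib

open Finset PowerSeries

namespace Pool.Agent.Results.MP_f3871b_nt.Signs

lemma trunc (g : ℕ → ℤ⟦X⟧) {N M : ℕ} (h : N ≤ M) :
    X ^ (N + 1) ∣ ∏ k ∈ range M, (1 + g k * X ^ (k + 1)) - ∏ k ∈ range N, (1 + g k * X ^ (k + 1)) := by
  induction M, h using Nat.le_induction with
  | base => simp
  | succ M h ih =>
    rw [prod_range_succ, mul_add, mul_one, add_sub_right_comm]
    exact dvd_add ih (((pow_dvd_pow X (by omega)).mul_left _).mul_left _)

noncomputable def iv (a : ℤ) (k : ℕ) : ℤ⟦X⟧ :=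
  PowerSeries.mk fun j => if k + 1 ∣ j then (-a) ^ (j / (k + 1)) else 0

lemma iv_mul (a : ℤ) (k : ℕ) : iv a k * (1 + C a * X ^ (k + 1)) = 1 := by
  ext j
  rw [mul_add, mul_one, mul_left_comm, map_add, coeff_C_mul, coeff_mul_X_pow', coeff_one, iv,
    coeff_mk]
  by_cases h : k + 1 ≤ j
  · obtain ⟨i, rfl⟩ := Nat.exists_eq_add_of_le h
    rw [if_pos h, coeff_mk, Nat.add_sub_cancel_left, if_neg (show ¬k + 1 + i = 0 by omega)]
    simp only [Nat.dvd_add_right (dvd_refl (k + 1)), Nat.add_div_left _ (Nat.succ_pos k)]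
    split_ifs
    · ring
    · ring
  · rcases Nat.eq_zero_or_pos j with rfl | h0
    · simp
    · rw [if_neg h, if_neg (fun e => h (Nat.le_of_dvd h0 e)), if_neg h0.ne']; ring

lemma logd (a : ℕ → ℤ) (N : ℕ) :
    X * d⁄dX ℤ (∏ k ∈ range N, (1 + C (a k) * X ^ (k + 1))) =
      (∏ k ∈ range N, (1 + C (a k) * X ^ (k + 1))) *
        ∑ k ∈ range N, C (k + 1 : ℤ) * (1 - iv (a k) k) := by
  induction N with
  | zero => simp
  | succ N ih =>
    have h : d⁄dX ℤ (1 + C (a N) * X ^ (N + 1) : ℤ⟦X⟧) = C (N + 1 : ℤ) * C (a N) * X ^ N := by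
      simp [Derivation.leibniz, Derivation.leibniz_pow, derivative_C]; ring
    rw [prod_range_succ, sum_range_succ, Derivation.leibniz, h, smul_eq_mul, smul_eq_mul]
    linear_combination (1 + C (a N) * X ^ (N + 1)) * ih +
      (∏ k ∈ range N, (1 + C (a k) * X ^ (k + 1))) * C (N + 1 : ℤ) * iv_mul (a N) N

open scoped PowerSeries.WithPiTopology in
lemma part (N : ℕ) : X ^ (N + 1) ∣ (PowerSeries.mk fun j => (Fintype.card j.Partition : ℤ)) *
    ∏ k ∈ range N, (1 + C (-1) * X ^ (k + 1)) - 1 := by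
  have h := (Nat.Partition.hasProd_powerSeriesMk_card_restricted ℤ fun _ => True).tendsto_prod_nat
  have e : ∀ i, (∑' j : ℕ, X ^ ((i + 1) * j) : ℤ⟦X⟧) * (1 + C (-1) * X ^ (i + 1)) = 1 := fun i => by
    simp_rw [pow_mul, map_neg, map_one, neg_one_mul, ← sub_eq_add_neg]
    exact WithPiTopology.tsum_pow_mul_one_sub_of_constantCoeff_eq_zero (by simp)
  obtain ⟨g, hg⟩ : ∃ g : ℕ → ℤ⟦X⟧, ∀ i, ∑' j : ℕ, X ^ ((i + 1) * j) = g i := ⟨_, fun _ => rfl⟩
  simp only [if_true, hg] at h e
  have e' : ∀ i, g i = 1 + g i * X ^ (i + 1) := fun i => by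
    have := e i
    rw [map_neg, map_one] at this
    linear_combination this
  have d : X ^ (N + 1) ∣ (PowerSeries.mk fun j => (Fintype.card j.Partition : ℤ)) -
      ∏ k ∈ range N, g k := by
    rw [X_pow_dvd_iff]
    intro j hj
    rw [map_sub, sub_eq_zero]
    have h1 := (WithPiTopology.tendsto_iff_coeff_tendsto _ _ _ _).1 h j
    refine Eq.trans (by simp [Nat.Partition.restricted]) (tendsto_nhds_unique h1
      (tendsto_atTop_of_eventually_const (i₀ := N) fun M hM => ?_))
    have := X_pow_dvd_iff.1 (trunc g hM) j hj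
    simp only [← e'] at this
    rwa [map_sub, sub_eq_zero] at this
  have := d.mul_right (∏ k ∈ range N, (1 + C (-1) * X ^ (k + 1)))
  rwa [sub_mul, ← prod_mul_distrib, prod_congr rfl fun i _ => e i, prod_const_one] at this

/-- The summand of the recurrence. -/
def tm (n : ℕ → ℤ) (N d : ℕ) : ℤ := d * ((-n d) ^ (N / d) + 1)

lemma recur {n : ℕ → ℤ}
    (h : ∀ N, coeff N (∏ k ∈ range N, (1 + C (n (k + 1)) * X ^ (k + 1) : ℤ⟦X⟧)) =
      Fintype.card N.Partition) {N : ℕ} (hN : 0 < N) :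
    ∑ k ∈ range N, (if k + 1 ∣ N then tm n N (k + 1) else 0) = 0 := by
  have d : X ^ (N + 1) ∣ (PowerSeries.mk fun j => (Fintype.card j.Partition : ℤ)) -
      ∏ k ∈ range N, (1 + C (n (k + 1)) * X ^ (k + 1) : ℤ⟦X⟧) := by
    rw [X_pow_dvd_iff]
    intro j hj
    have := X_pow_dvd_iff.1 (trunc (fun k => C (n (k + 1))) (show j ≤ N by omega)) j (by omega)
    rw [map_sub, h] at this
    rw [map_sub, coeff_mk]; linarith
  obtain ⟨G, hG⟩ := dvd_sub (part N) (d.mul_right (∏ k ∈ range N, (1 + C (-1) * X ^ (k + 1))))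
  have l1 := logd (fun k => n (k + 1)) N
  have l2 := logd (fun _ => -1) N
  generalize ∏ k ∈ range N, (1 + C (n (k + 1)) * X ^ (k + 1) : ℤ⟦X⟧) = A at *
  generalize ∏ k ∈ range N, (1 + C (-1) * X ^ (k + 1) : ℤ⟦X⟧) = B at *
  have e : A * B = 1 + X ^ (N + 1) * G := by linear_combination hG
  have e2 := congrArg (d⁄dX ℤ) e
  simp only [Derivation.leibniz, Derivation.leibniz_pow, map_add, Derivation.map_one_eq_zero,
    smul_eq_mul, derivative_X, nsmul_eq_mul, Nat.add_sub_cancel] at e2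
  have e3 : X ^ (N + 1) ∣ ∑ k ∈ range N, C (k + 1 : ℤ) * (1 - iv (n (k + 1)) k) +
      ∑ k ∈ range N, C (k + 1 : ℤ) * (1 - iv (-1) k) := by
    generalize ∑ k ∈ range N, C (k + 1 : ℤ) * (1 - iv (n (k + 1)) k) = S at *
    generalize ∑ k ∈ range N, C (k + 1 : ℤ) * (1 - iv (-1) k) = T at *
    exact ⟨X * d⁄dX ℤ G + G * ((N + 1 : ℕ) : ℤ⟦X⟧) - G * (S + T), by
      linear_combination X * e2 - B * l1 - A * l2 - (S + T) * e⟩
  have := X_pow_dvd_iff.1 e3 N (by omega)
  rw [← sum_add_distrib, map_sum] at this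
  rw [← neg_eq_zero, ← sum_neg_distrib]
  refine Eq.trans (sum_congr rfl fun k _ => ?_) this
  rw [map_add, coeff_C_mul, coeff_C_mul]
  simp only [map_sub, coeff_one, if_neg hN.ne', iv, coeff_mk, tm, neg_neg, one_pow]
  split_ifs
  · push_cast; ring
  · ring

def P (e : ℕ) (v : ℤ) : Prop :=
  (3 ≤ e → |v| * (max 1 (300 / e) + 2 : ℕ) ≤ (max 1 (300 / e) : ℕ) * 2 ^ e ∧
    e * |v| ^ (max 1 (300 / e) + 1) * ((max 1 (300 / e) + 1 : ℕ) * (max 1 (300 / e) : ℕ)) ≤
      2 ^ (e * (max 1 (300 / e) + 1))) ∧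
    (4 ≤ e → if e % 4 = 0 then 0 < v else v < 0) ∧ (e = 1 → v = 2) ∧ (e = 2 → v = 4)

instance (e : ℕ) (v : ℤ) : Decidable (P e v) := by unfold P; infer_instance

def S (N : ℕ) : ℕ → List ℤ → ℤ
  | d + 1, x :: l => if N % (d + 1) = 0 then (d + 1 : ℕ) * ((-x) ^ (N / (d + 1)) + 1) + S N d l
      else S N d l
  | _, _ => 0

def frc (v : ℤ) (k : ℤ → Bool) : Bool :=
  match v with
  | .ofNat 0 => k 0
  | .ofNat (a + 1) => k (.ofNat (a + 1))
  | .negSucc 0 => k (-1)
  | .negSucc (a + 1) => k (.negSucc (a + 1))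

lemma frc_eq (v : ℤ) (k : ℤ → Bool) : frc v k = k v := by
  rcases v with (_ | a) | (_ | a) <;> rfl

def go : ℕ → ℕ → List ℤ → Bool
  | 0, _, _ => true
  | f + 1, d, l => frc (1 + S (d + 1) d l / (d + 1 : ℕ)) fun v =>
      ((d + 1) % 2 == 1 || decide (P ((d + 1) / 2) v)) && go f (d + 1) (v :: l)

def rl (n : ℕ → ℤ) : ℕ → List ℤ
  | 0 => []
  | d + 1 => n (d + 1) :: rl n d

lemma S_eq (n : ℕ → ℤ) (N : ℕ) : ∀ d,
    S N d (rl n d) = ∑ k ∈ range d, if k + 1 ∣ N then tm n N (k + 1) else 0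
  | 0 => rfl
  | d + 1 => by
    rw [rl, S, sum_range_succ, S_eq n N d]
    simp only [← Nat.dvd_iff_mod_eq_zero, tm]
    split_ifs <;> ring

variable {n : ℕ → ℤ} (R : ∀ N, 0 < N → ∑ k ∈ range N, (if k + 1 ∣ N then tm n N (k + 1) else 0) = 0)
include R

lemma go_spec : ∀ f d, go f d (rl n d) → ∀ e, d < 2 * e → 2 * e ≤ d + f → P e (n (2 * e))
  | 0, d, _, e, h1, h2 => by omega
  | f + 1, d, h, e, h1, h2 => by
    have r := R (d + 1) (by omega)
    rw [sum_range_succ, if_pos dvd_rfl, ← S_eq, tm, Nat.div_self (by omega), pow_one] at r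
    have : 1 + S (d + 1) d (rl n d) / (d + 1 : ℕ) = n (d + 1) := by
      rw [show S (d + 1) d (rl n d) = (d + 1 : ℕ) * (n (d + 1) - 1) by linarith,
        Int.mul_ediv_cancel_left _ (by positivity)]
      ring
    rw [go, frc_eq, this] at h
    simp only [Bool.and_eq_true, Bool.or_eq_true, beq_iff_eq, decide_eq_true_eq] at h
    rcases eq_or_ne (2 * e) (d + 1) with c | c
    · have := h.1.resolve_left (by omega)
      rwa [← c, Nat.mul_div_cancel_left _ two_pos] at this
    · exact go_spec f (d + 1) h.2 e (by omega) (by omega)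

lemma rdiv {N : ℕ} (hN : 0 < N) : ∑ d ∈ N.divisors, tm n N d = 0 := by
  rw [← R N hN, Nat.divisors, sum_filter, sum_Ico_eq_sum_range]
  simp only [Nat.add_sub_cancel, add_comm 1]

lemma odd_one (N : ℕ) : Odd N → n N = 1 := by
  induction N using Nat.strong_induction_on with
  | _ N ih =>
    intro h
    have r := rdiv R h.pos
    rw [← Nat.insert_self_properDivisors h.pos.ne', sum_insert Nat.self_notMem_properDivisors,
      sum_eq_zero, tm, Nat.div_self h.pos] at r
    · have : (N : ℤ) ≠ 0 := by exact_mod_cast h.pos.ne'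
      have := (mul_eq_zero.1 ((add_zero _).symm.trans r)).resolve_left this
      linarith
    · intro d hd
      rw [Nat.mem_properDivisors] at hd
      rw [tm, ih d hd.2 (h.of_dvd_nat hd.1), (h.of_dvd_nat (Nat.div_dvd_of_dvd hd.1)).neg_one_pow]
      ring

omit R in
lemma go_ok : go 600 0 [] = true := by decide +kernel

omit R in
lemma decay {r K : ℝ} {a : ℕ} (hr : 0 ≤ r) (h1 : r * (a + 2) ≤ a)
    (h0 : K * r ^ a * ((a + 1) * a) ≤ 1) (j : ℕ) (hj : a ≤ j) : K * r ^ j * ((j + 1) * j) ≤ 1 := by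
  induction j, hj using Nat.le_induction with
  | base => exact h0
  | succ j hj ih =>
    rcases le_or_gt K 0 with hK | hK
    · exact (mul_nonpos_of_nonpos_of_nonneg (mul_nonpos_of_nonpos_of_nonneg hK (by positivity))
        (by positivity)).trans zero_le_one
    refine le_trans ?_ ih
    have : (a : ℝ) ≤ j := by exact_mod_cast hj
    have h2 : r ≤ 1 := by
      by_contra c
      have : (0 : ℝ) ≤ a := by positivity
      nlinarith
    have : r * (j + 2) ≤ j := by nlinarith
    calc _ = K * r ^ j * (j + 1) * (r * (j + 2)) := by push_cast; ring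
      _ ≤ K * r ^ j * (j + 1) * j := by gcongr
      _ = _ := by ring

omit R in
lemma term {e j : ℕ} {v : ℤ} (he : 3 ≤ e) (hj : 1 ≤ j) (hM : 300 < e * (j + 1)) (h : P e v) :
    (e : ℝ) * |(v : ℝ)| ^ (j + 1) ≤ 2 ^ (e * (j + 1)) * (1 / ((j + 1) * j)) := by
  obtain ⟨h1, h2⟩ := h.1 he
  have ha : max 1 (300 / e) ≤ j := max_le hj (Nat.le_of_lt_succ
    ((Nat.div_lt_iff_lt_mul (by omega)).2 (by rwa [mul_comm])))
  generalize max 1 (300 / e) = a at h1 h2 ha
  have hj' : (0 : ℝ) < j := by exact_mod_cast hj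
  have g1 : |(v : ℝ)| * (a + 2) ≤ a * 2 ^ e := by exact_mod_cast h1
  have g2 : (e : ℝ) * |(v : ℝ)| ^ (a + 1) * ((a + 1) * a) ≤ 2 ^ (e * (a + 1)) := by
    exact_mod_cast h2
  obtain ⟨c, hc⟩ : ∃ c : ℝ, |(v : ℝ)| = c * 2 ^ e := ⟨|(v : ℝ)| / 2 ^ e, by field_simp⟩
  have p : (0 : ℝ) < 2 ^ e := by positivity
  have c0 : 0 ≤ c := nonneg_of_mul_nonneg_left (hc ▸ abs_nonneg _) p
  rw [hc, mul_pow, ← pow_mul] at g2
  rw [hc, mul_pow, ← pow_mul, mul_one_div, le_div_iff₀ (by positivity)]
  have := decay (K := e * c) (a := a) c0 (le_of_mul_le_mul_right (by rw [hc] at g1; linarith) p)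
    (le_of_mul_le_mul_right (by rw [one_mul]; refine le_trans (le_of_eq (by ring)) g2)
      (show (0 : ℝ) < 2 ^ (e * (a + 1)) by positivity)) j ha
  calc _ = e * c * c ^ j * ((j + 1) * j) * 2 ^ (e * (j + 1)) := by ring
    _ ≤ 1 * 2 ^ (e * (j + 1)) := by gcongr
    _ = _ := one_mul _

omit R in
lemma wsum (M : ℕ) : ∑ j ∈ Ico 1 (M + 1 + 1), (1 / (j * (j - 1)) : ℝ) = 1 - 1 / (M + 1) := by
  induction M with
  | zero => simp
  | succ M ih =>
    rw [sum_Ico_succ_top (by omega), ih]; push_cast; rw [show (M : ℝ) + 2 - 1 = M + 1 by ring]; field_simp; ring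

lemma all (M : ℕ) : 0 < M → P M (n (2 * M)) := by
  induction M using Nat.strong_induction_on with
  | _ M ih =>
    intro h0
    rcases le_or_gt M 300 with hM | hM
    · exact go_spec R 600 0 go_ok M (by omega) (by omega)
    have n2 : n 2 = 2 := (ih 1 (by omega) one_pos).2.2.1 rfl
    have n4 : n 4 = 4 := (ih 2 (by omega) two_pos).2.2.2 rfl
    have r := rdiv R (show 0 < 2 * M by omega)
    let mn : ℕ → ℝ := fun d => (if d = 2 * M then -(2 * M * (n (2 * M) : ℝ)) else 0) +
      (if d = 2 then 2 * (-2) ^ M else 0) + if d = 4 then 4 * (-4) ^ (M / 2) else 0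
    have b : ∀ d ∈ (2 * M).divisors, |mn d - tm n (2 * M) d| ≤
        4 * M + 2 * 2 ^ M * (1 / ((2 * M / d : ℕ) * ((2 * M / d : ℕ) - 1))) := by
      intro d hd
      have hd' := Nat.dvd_of_mem_divisors hd
      have dM : (d : ℝ) ≤ 2 * M := by exact_mod_cast Nat.divisor_le hd
      have d0 : (0 : ℝ) ≤ d := by positivity
      have j1 : (1 : ℝ) ≤ (2 * M / d : ℕ) := by
        exact_mod_cast Nat.div_pos (Nat.divisor_le hd) (Nat.pos_of_mem_divisors hd)
      have w0 : (0 : ℝ) ≤ 2 * 2 ^ M * (1 / ((2 * M / d : ℕ) * ((2 * M / d : ℕ) - 1))) := by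
        have := sub_nonneg.2 j1
        positivity
      have easy : mn d - tm n (2 * M) d = -d ∨ mn d - tm n (2 * M) d = -(2 * d) →
          |mn d - tm n (2 * M) d| ≤
            4 * M + 2 * 2 ^ M * (1 / ((2 * M / d : ℕ) * ((2 * M / d : ℕ) - 1))) := by
        rintro (e | e) <;> rw [e, abs_neg, abs_of_nonneg (by positivity)] <;> linarith
      by_cases c1 : d = 2 * M
      · refine easy (.inl ?_)
        simp only [mn, tm, c1, if_true, if_neg (show 2 * M ≠ 2 by omega),
          if_neg (show 2 * M ≠ 4 by omega), Nat.div_self (show 0 < 2 * M by omega)]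
        push_cast; ring
      by_cases c2 : d = 2
      · refine easy (.inl ?_)
        subst c2
        simp only [mn, tm, if_neg c1, n2, Nat.mul_div_cancel_left _ two_pos]
        norm_num; ring
      by_cases c4 : d = 4
      · refine easy (.inl ?_)
        subst c4
        simp only [mn, tm, if_neg c1, n4, show 2 * M / 4 = M / 2 by omega]
        norm_num; ring
      rcases Nat.even_or_odd' d with ⟨e, rfl | rfl⟩
      · obtain ⟨j, rfl⟩ := Nat.dvd_of_mul_dvd_mul_left two_pos hd'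
        have e0 : 0 < e := Nat.pos_of_mul_pos_right h0
        obtain ⟨j, rfl⟩ : ∃ i, j = i + 1 := ⟨j - 1, by
          have := Nat.pos_of_mul_pos_left h0
          omega⟩
        have j0 : 1 ≤ j := by
          by_contra c
          obtain rfl : j = 0 := by omega
          simp at c1
        have := term (by omega) j0 hM (ih e (by nlinarith) e0)
        simp only [mn, tm, if_neg c1, if_neg c2, if_neg c4, add_zero, zero_sub, abs_neg,
          show 2 * (e * (j + 1)) / (2 * e) = j + 1 by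
            rw [← mul_assoc, Nat.mul_div_cancel_left _ (by omega)]]
        push_cast at dM ⊢
        rw [abs_mul, abs_of_nonneg (by positivity), add_sub_cancel_right]
        have := abs_add_le ((-n (2 * e) : ℝ) ^ (j + 1)) 1
        rw [abs_pow, abs_neg, abs_one] at this
        have : (0 : ℝ) ≤ e := by positivity
        nlinarith
      · refine easy (.inr ?_)
        have o : Odd (2 * e + 1) := odd_two_mul_add_one e
        have : Even (2 * M / (2 * e + 1)) := by
          obtain ⟨j, hj⟩ := hd'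
          rw [hj, Nat.mul_div_cancel_left _ (by omega)]
          exact (Nat.even_mul.1 (hj ▸ even_two_mul M)).resolve_left (Nat.not_even_iff_odd.2 o)
        simp only [mn, tm, if_neg c1, if_neg c2, if_neg c4, odd_one R _ o, this.neg_one_pow]
        push_cast; ring
    have s1 := (abs_sum_le_sum_abs _ _).trans (sum_le_sum b)
    rw [sum_sub_distrib, ← Int.cast_sum, r, Int.cast_zero, sub_zero,
      sum_add_distrib (f := fun _ => (4 * M : ℝ)), sum_const, ← mul_sum,
      Nat.sum_div_divisors _ fun j => (1 / (j * (j - 1)) : ℝ), nsmul_eq_mul] at s1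
    have s2 : ∑ j ∈ (2 * M).divisors, (1 / (j * (j - 1)) : ℝ) ≤ 1 - 1 / (2 * M) := by
      have := wsum (2 * M - 1)
      rw [Nat.sub_add_cancel (by omega), Nat.cast_pred (by omega), sub_add_cancel] at this
      push_cast at this
      simp only [one_div] at this ⊢
      rw [← this]
      refine sum_le_sum_of_subset_of_nonneg (filter_subset _ _) fun j hj _ => ?_
      have : (1 : ℝ) ≤ j := by exact_mod_cast (mem_Ico.1 hj).1
      have := sub_nonneg.2 this
      positivity
    have s3 : (#(2 * M).divisors : ℝ) ≤ 2 * M := by exact_mod_cast Nat.card_divisors_le_self _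
    have M1 : (300 : ℝ) < M := by exact_mod_cast hM
    have s4 : 8 * (M : ℝ) ^ 3 < 2 ^ M := by
      have := decay (K := 1) (r := 3 / 4) (a := 100) (by norm_num) (by norm_num)
        (by norm_num) M (by omega)
      have t : (8 * M : ℝ) < (3 / 2) ^ M := by
        obtain ⟨i, rfl⟩ := Nat.exists_eq_add_of_le (show 20 ≤ M by omega)
        have := one_add_mul_le_pow (a := (1 / 2 : ℝ)) (by norm_num) i
        have i0 : (0 : ℝ) ≤ i := by positivity
        rw [pow_add]; push_cast; norm_num at this ⊢; nlinarith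
      have u : (2 : ℝ) ^ M * (3 / 4) ^ M = (3 / 2) ^ M := by rw [← mul_pow]; norm_num
      have p : (0 : ℝ) < 2 ^ M := by positivity
      have q : (0 : ℝ) < (3 / 4) ^ M := by positivity
      have : (3 / 2 : ℝ) ^ M * M ^ 2 ≤ 2 ^ M := by rw [← u]; nlinarith
      nlinarith
    have p : (0 : ℝ) < 2 ^ M := by positivity
    have s5 : |∑ d ∈ (2 * M).divisors, mn d| < 2 * 2 ^ M := by
      refine s1.trans_lt ?_
      have : #(2 * M).divisors * (4 * (M : ℝ)) < 2 * 2 ^ M * (1 / (2 * M)) := by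
        rw [mul_one_div, lt_div_iff₀ (by positivity)]
        have : #(2 * M).divisors * (8 * (M : ℝ) ^ 2) ≤ 2 * M * (8 * M ^ 2) := by gcongr
        nlinarith
      nlinarith
    simp only [mn, sum_add_distrib, sum_ite_eq', Nat.mem_divisors, dvd_refl, dvd_mul_right,
      ne_eq, show ¬2 * M = 0 by omega, not_false_eq_true, and_true, if_true] at s5
    have key : (if M % 4 = 0 then (0 : ℝ) < n (2 * M) else (n (2 * M) : ℝ) < 0) ∧
        M * |(n (2 * M) : ℝ)| ≤ 4 * 2 ^ M := by
      rw [abs_lt] at s5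
      generalize (n (2 * M) : ℝ) = v at *
      have q : M * |v| = |M * v| := by rw [abs_mul, abs_of_pos (by linarith : (0 : ℝ) < M)]
      have M0 : (0 : ℝ) ≤ M := by positivity
      rw [q, abs_le]
      rcases Nat.even_or_odd' M with ⟨i, rfl | rfl⟩
      · have f : (4 : ℝ) ^ i = 2 ^ (2 * i) := by rw [pow_mul]; norm_num
        rw [if_pos ⟨i, by ring⟩, (even_two_mul i).neg_pow, Nat.mul_div_cancel_left _ two_pos] at s5
        rcases Nat.even_or_odd' i with ⟨l, rfl | rfl⟩
        · rw [(even_two_mul l).neg_pow, f] at s5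
          rw [if_pos (by omega)]
          exact ⟨by nlinarith, by linarith, by linarith⟩
        · rw [(odd_two_mul_add_one l).neg_pow, f] at s5
          rw [if_neg (by omega)]
          exact ⟨neg_of_mul_neg_left (a := _) (by linarith) M0,
            by linarith, by linarith⟩
      · rw [if_neg (by omega), (odd_two_mul_add_one i).neg_pow] at s5
        rw [if_neg (by omega)]
        exact ⟨neg_of_mul_neg_left (a := _) (by linarith) M0,
          by linarith, by linarith⟩
    have a0 := abs_nonneg (n (2 * M) : ℝ)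
    refine ⟨fun _ => ?_, fun _ => ?_, by omega, by omega⟩
    · rw [Nat.div_eq_of_lt hM, show max 1 0 = 1 from rfl]
      have k3 : |(n (2 * M) : ℝ)| * 8 ≤ 2 ^ M := by nlinarith [key.2]
      have k4 : |(n (2 * M) : ℝ)| * 3 ≤ 2 ^ M := by linarith
      have k5 : M * |(n (2 * M) : ℝ)| ^ 2 * 2 ≤ (2 ^ M) ^ 2 := by
        nlinarith [mul_le_mul key.2 k3 (by positivity) (by positivity)]
      rw [← pow_mul, sq_abs] at k5
      norm_num
      exact ⟨by exact_mod_cast k4, by exact_mod_cast k5⟩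
    · exact_mod_cast key.1

omit R in
theorem result (n : ℕ → ℤ)
    (h : ∀ N, coeff N (∏ k ∈ range N, (1 + C (n (k + 1)) * X ^ (k + 1) : ℤ⟦X⟧)) =
      Fintype.card N.Partition) (k : ℕ) (hk : 1 ≤ k) :
    n (8 * k + 2) < 0 ∧ n (8 * k + 4) < 0 ∧ n (8 * k + 6) < 0 ∧ 0 < n (8 * k) := by
  have H := fun M (hM : 4 ≤ M) => (all (fun _ => recur h) M (by omega)).2.1 hM
  have h1 := H (4 * k + 1) (by omega)
  have h2 := H (4 * k + 2) (by omega)
  have h3 := H (4 * k + 3) (by omega)
  have h0 := H (4 * k) (by omega)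
  rw [if_neg (by omega)] at h1 h2 h3
  rw [if_pos (by omega)] at h0
  ring_nf at h0 h1 h2 h3 ⊢
  exact ⟨h1, h2, h3, h0⟩

end Pool.Agent.Results.MP_f3871b_nt.Signs
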